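import Mathlib

/-!
# A balanced Butson matrix of order 16 over the fourth roots of unity

The exponent table `E` of a Butson matrix `BH(4,16)` in normal form, found by a random walk through
switchings.  Every row and every column other than the first contains every fourth root of unity
four times, but the quotient of two rows contains the fourth roots `6, 2, 6, 2` times.
-/

namespace Pool.Agent.R110

/-- exponents (base `i`) of the example -/
def tab : List (List ℕ) :=
  [[0,0,0,0,0,0,0,0,0,0,0,0,0,0,0,0],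
   [0,0,0,3,2,1,1,3,2,0,1,1,2,3,3,2],
   [0,2,3,2,1,1,2,0,0,1,2,3,1,3,3,0],
   [0,2,0,2,3,3,0,2,3,1,2,1,0,3,1,1],
   [0,3,2,3,3,1,2,1,2,0,3,1,0,1,2,0],
   [0,0,1,1,2,1,0,0,3,2,3,3,3,2,2,1],
   [0,3,1,2,0,3,1,1,2,1,0,3,2,2,0,3],
   [0,1,1,0,3,0,3,2,1,2,2,0,1,2,3,3],
   [0,3,2,1,0,2,3,3,1,1,1,0,3,0,2,2],
   [0,1,3,0,0,3,1,1,2,3,2,3,2,0,2,1],
   [0,1,3,2,3,0,2,3,1,2,0,2,3,1,0,1],
   [0,1,2,3,1,3,3,0,0,0,3,1,2,2,1,2],
   [0,0,0,1,1,2,2,2,1,3,3,2,0,3,1,3],
   [0,2,1,3,1,2,0,2,0,3,1,2,3,1,3,0],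
   [0,3,2,1,2,0,3,1,3,3,1,2,1,0,0,2],
   [0,2,3,0,2,2,1,3,3,2,0,0,1,1,1,3]]

/-- the exponent in row `i`, column `j` -/
def E (i j : Fin 16) : ℕ := (tab.getD i []).getD j 0

/-- the matrix `[i ^ E]` -/
noncomputable def M : Matrix (Fin 16) (Fin 16) ℂ := fun i j => Complex.I ^ E i j

/-- real part of `i ^ n` -/
def rp (n : ℕ) : ℤ := if n % 4 = 0 then 1 else if n % 4 = 2 then -1 else 0
/-- imaginary part of `i ^ n` -/
def ip (n : ℕ) : ℤ := if n % 4 = 1 then 1 else if n % 4 = 3 then -1 else 0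

theorem I_pow (n : ℕ) : Complex.I ^ n = (rp n : ℂ) + (ip n : ℂ) * Complex.I := by
  have h : Complex.I ^ n = Complex.I ^ (n % 4) := by
    conv_lhs => rw [← Nat.div_add_mod n 4, pow_add, pow_mul, Complex.I_pow_four, one_pow, one_mul]
  rw [h]
  have h4 : n % 4 < 4 := Nat.mod_lt _ (by norm_num)
  unfold rp ip
  generalize n % 4 = m at h4
  interval_cases m <;> simp [Complex.I_sq, pow_succ]

theorem conj_I_pow (n : ℕ) : star (Complex.I ^ n) = Complex.I ^ (3 * n) := by
  rw [star_pow, pow_mul]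
  congr 1
  simp [pow_succ]

theorem I_pow_inj {a b : ℕ} (ha : a < 4) (hb : b < 4) (h : Complex.I ^ a = Complex.I ^ b) :
    a = b := by
  rw [I_pow, I_pow] at h
  have h1 := congrArg Complex.re h
  have h2 := congrArg Complex.im h
  simp at h1 h2
  unfold rp at h1
  unfold ip at h2
  interval_cases a <;> interval_cases b <;> simp_all

theorem exists_pow {z : ℂ} (h : z ^ 4 = 1) : ∃ a, a < 4 ∧ z = Complex.I ^ a := by
  have h1 : (z ^ 2 - 1) * (z ^ 2 + 1) = 0 := by linear_combination h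
  rcases mul_eq_zero.mp h1 with h2 | h2
  · have h3 : (z - 1) * (z + 1) = 0 := by linear_combination h2
    rcases mul_eq_zero.mp h3 with h4 | h4
    · exact ⟨0, by norm_num, by rw [pow_zero]; linear_combination h4⟩
    · exact ⟨2, by norm_num, by rw [Complex.I_sq]; linear_combination h4⟩
  · have h3 : (z - Complex.I) * (z + Complex.I) = 0 := by
      linear_combination h2 - Complex.I_sq
    rcases mul_eq_zero.mp h3 with h4 | h4
    · exact ⟨1, by norm_num, by rw [pow_one]; linear_combination h4⟩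
    · refine ⟨3, by norm_num, ?_⟩
      have : Complex.I ^ 3 = - Complex.I := by
        rw [pow_succ, Complex.I_sq]; ring
      rw [this]
      linear_combination h4

theorem E_lt : ∀ i j, E i j < 4 := by decide +kernel

theorem gram : ∀ i k : Fin 16, (∑ j : Fin 16, rp (E i j + 3 * E k j)) = (if i = k then 16 else 0) ∧
    (∑ j : Fin 16, ip (E i j + 3 * E k j)) = 0 := by decide +kernel

theorem row_count : ∀ i : Fin 16, i ≠ 0 → ∀ a : Fin 4,
    (Finset.univ.filter (fun j : Fin 16 => E i j = a)).card = 4 := by decide +kernel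

theorem col_count : ∀ j : Fin 16, j ≠ 0 → ∀ a : Fin 4,
    (Finset.univ.filter (fun i : Fin 16 => E i j = a)).card = 4 := by decide +kernel

theorem E_zero : ∀ i : Fin 16, E 0 i = 0 ∧ E i 0 = 0 := by decide +kernel

theorem quot_count : (Finset.univ.filter (fun j : Fin 16 => E 3 j = E 2 j)).card = 6 := by
  decide +kernel

theorem M_gram : M * M.conjTranspose = (16 : ℂ) • (1 : Matrix (Fin 16) (Fin 16) ℂ) := by
  ext i k
  rw [Matrix.mul_apply]
  have h : ∀ j, M i j * M.conjTranspose j k =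
      ((rp (E i j + 3 * E k j) : ℤ) : ℂ) + ((ip (E i j + 3 * E k j) : ℤ) : ℂ) * Complex.I := by
    intro j
    rw [Matrix.conjTranspose_apply]
    unfold M
    rw [conj_I_pow, ← pow_add, I_pow]
  rw [Finset.sum_congr rfl (fun j _ => h j), Finset.sum_add_distrib, ← Finset.sum_mul,
    ← Int.cast_sum, ← Int.cast_sum, (gram i k).1, (gram i k).2]
  by_cases hik : i = k
  · subst hik
    simp
  · simp [hik]

theorem M_root (i j : Fin 16) : M i j ^ 4 = 1 := by
  unfold M
  rw [← pow_mul, mul_comm, pow_mul, Complex.I_pow_four, one_pow]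

end Pool.Agent.R110
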