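import Mathlib

/-!
# Jacket matrices, their width, and property (F)

Definitions for the problem MP_522cd8_co.
-/

namespace Pool.Agent.R110.Jacket

open Finset

section Defs

variable {R : Type} [Ring R]

/-- `M` is a `GBH(N, v)` matrix: `v ≥ 2`, the characteristic of `R` does not divide `v`, the entries
of the `v × v` matrix `M` lie in the subgroup `N` of the group of units of `R`, and
`M M* = M* M = v I` where `(M*)_(i j) = (m_(j i))⁻¹`. -/
def IsGBH (N : Subgroup Rˣ) (v : ℕ) (M : Fin v → Fin v → Rˣ) : Prop :=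
  2 ≤ v ∧ ¬ ringChar R ∣ v ∧ (∀ i j, M i j ∈ N) ∧
    (∀ i k, ∑ j, (M i j : R) * ((M k j)⁻¹ : Rˣ) = if i = k then (v : R) else 0) ∧
    (∀ i k, ∑ j, ((M j i)⁻¹ : Rˣ) * (M j k : R) = if i = k then (v : R) else 0)

/-- The first row and the first column consist of ones. -/
def Normalised (v : ℕ) (M : Fin v → Fin v → Rˣ) : Prop :=
  ∀ i j : Fin v, ((i : ℕ) = 0 ∨ (j : ℕ) = 0) → M i j = 1

/-- `K` arises from `M` by permuting rows and permuting columns. -/
def PermEquiv (v : ℕ) (M K : Fin v → Fin v → Rˣ) : Prop :=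
  ∃ σ τ : Equiv.Perm (Fin v), ∀ i j, K i j = M (σ i) (τ j)

/-- `K'` is a rearrangement of `K` with first row and column `1` such that the first `m` and the last
`m` rows and columns are entirely in `{1, -1}`. -/
def Rearr (v m : ℕ) (K K' : Fin v → Fin v → Rˣ) : Prop :=
  PermEquiv v K K' ∧ Normalised v K' ∧
    ∀ i j : Fin v, ((i : ℕ) < m ∨ v ≤ (i : ℕ) + m ∨ (j : ℕ) < m ∨ v ≤ (j : ℕ) + m) →
      K' i j = 1 ∨ K' i j = -1

/-- `K` is a jacket matrix (with entries in `N`): a normalised `GBH(N, v)` matrix which is permutation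
equivalent to a matrix with first row and column `1` and last row and column in `{1, -1}`. -/
def IsJacket (N : Subgroup Rˣ) (v : ℕ) (K : Fin v → Fin v → Rˣ) : Prop :=
  IsGBH N v K ∧ Normalised v K ∧ ∃ K', Rearr v 1 K K'

/-- The jacket width of `K` is `w`: the largest `m` with `1 ≤ m ≤ v / 2` such that some rearrangement
of `K` has its first `m` and last `m` rows and columns entirely in `{1, -1}`. -/
def JacketWidth (v : ℕ) (K : Fin v → Fin v → Rˣ) (w : ℕ) : Prop :=
  IsGreatest {m : ℕ | 1 ≤ m ∧ 2 * m ≤ v ∧ ∃ K', Rearr v m K K'} w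

/-- `K` is primary: it is not permutation equivalent to a Kronecker product of two jacket matrices. -/
def Primary (N : Subgroup Rˣ) (v : ℕ) (K : Fin v → Fin v → Rˣ) : Prop :=
  ¬ ∃ (a b : ℕ) (K₁ : Fin a → Fin a → Rˣ) (K₂ : Fin b → Fin b → Rˣ)
    (e f : Fin a × Fin b ≃ Fin v), IsJacket N a K₁ ∧ IsJacket N b K₂ ∧
      ∀ p q, K (e p) (f q) = K₁ p.1 q.1 * K₂ p.2 q.2

/-- `w` is admissible for `n`. -/
def Admissible (n w : ℕ) : Prop :=
  1 ≤ w ∧ ((Even n ∧ w ≤ n) ∨ (Odd n ∧ w ≤ n - 1))

/-- Property (F): for infinitely many `n` every width admissible for `n` is the jacket width of a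
primary jacket matrix of order `2 n` with entries in `N`. -/
def PropertyF (R : Type) [Ring R] (N : Subgroup Rˣ) : Prop :=
  Set.Infinite {n : ℕ | ∀ w, Admissible n w → ∃ K : Fin (2 * n) → Fin (2 * n) → Rˣ,
    IsJacket N (2 * n) K ∧ Primary N (2 * n) K ∧ JacketWidth (2 * n) K w}

end Defs

variable {v : ℕ}

/-- There are `2 m` indices among the first `m` and the last `m` ones. -/
theorem card_outer (m : ℕ) (hm : 2 * m ≤ v) :
    (univ.filter (fun i : Fin v => (i : ℕ) < m ∨ v ≤ (i : ℕ) + m)).card = 2 * m := by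
  have h : (univ.filter (fun i : Fin v => (i : ℕ) < m ∨ v ≤ (i : ℕ) + m)).map Fin.valEmbedding =
      range m ∪ Ico (v - m) v := by
    ext a
    simp only [mem_map, mem_filter, mem_univ, true_and, Fin.valEmbedding_apply, mem_union,
      mem_range, mem_Ico]
    constructor
    · rintro ⟨i, hi, rfl⟩
      have := i.2
      omega
    · intro ha
      exact ⟨⟨a, by omega⟩, by simp only; omega, rfl⟩
  rw [← card_map Fin.valEmbedding, h, card_union_of_disjoint, card_range, Nat.card_Ico]
  · omega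
  · rw [disjoint_left]
    intro a ha hb
    rw [mem_range] at ha
    rw [mem_Ico] at hb
    omega

end Pool.Agent.R110.Jacket
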